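import Mathlib
import Pool.Agent.Lib.Pab2f70.Final
import Pool.Agent.Lib.Pab2f70.NotDense

/-!
# MP_ab2f70_an: Domar's conjecture fails, for weights decaying as fast as one likes
-/

set_option autoImplicit false

open MeasureTheory Set Filter

namespace Pool.Agent.Results.MP_ab2f70_an.FastDecay

/-- A weight function of submultiplicative type: positive, bounded, strictly decreasing on
`[0, ∞)`, with `log w(x) / x → -∞` and `w(x + y) ≤ C w(x) w(y)` for some constant `C`. -/
structure IsSubmultWeight (w : ℝ → ℝ) : Prop where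
  pos : ∀ x, 0 ≤ x → 0 < w x
  bdd : ∃ M : ℝ, ∀ x, 0 ≤ x → w x ≤ M
  decreasing : StrictAntiOn w (Ici 0)
  lim : Tendsto (fun x : ℝ => Real.log (w x) / x) atTop atBot
  submult : ∃ C : ℝ, ∀ x y : ℝ, 0 ≤ x → 0 ≤ y → w (x + y) ≤ C * w x * w y

/-- `f` belongs to the weighted space `L_w`. -/
def InLw (w : ℝ → ℝ) (f : ℝ → ℂ) : Prop :=
  IntegrableOn (fun x : ℝ => f x * (w x : ℂ)) (Ioi (0 : ℝ))

/-- The right translate `T_a f`. -/
noncomputable def translate (a : ℝ) (f : ℝ → ℂ) : ℝ → ℂ :=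
  (Ioi a).indicator (fun x : ℝ => f (x - a))

/-- `f` is cyclic: every `g ∈ L_w` is approximated in the norm of `L_w` by finite linear
combinations of the translates `T_a f`, `a > 0`. -/
def IsCyclic (w : ℝ → ℝ) (f : ℝ → ℂ) : Prop :=
  ∀ g : ℝ → ℂ, InLw w g → ∀ ε : ℝ, 0 < ε → ∃ (n : ℕ) (a : Fin n → ℝ) (c : Fin n → ℂ),
    (∀ i, 0 < a i) ∧
    IntegrableOn (fun x : ℝ => ‖g x - ∑ i, c i * translate (a i) f x‖ * w x) (Ioi (0 : ℝ)) ∧
    ∫ x in Ioi (0 : ℝ), ‖g x - ∑ i, c i * translate (a i) f x‖ * w x < ε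

/-- For every nondecreasing `ρ` there are a weight `w` of submultiplicative type with
`w(x) ≤ e^{-ρ(x)}` for `x ≥ 1` and a nonnegative `f ∈ L_w`, positive everywhere on `(0, 1)`, that is
not cyclic. -/
theorem result : ∀ ρ : ℝ → ℝ, Monotone ρ →
    ∃ w : ℝ → ℝ, IsSubmultWeight w ∧ (∀ x : ℝ, 1 ≤ x → w x ≤ Real.exp (-ρ x)) ∧
      ∃ f : ℝ → ℝ, (∀ x, 0 ≤ f x) ∧ (∀ x, 0 < x → x < 1 → 0 < f x) ∧
        InLw w (fun x => (f x : ℂ)) ∧ ¬ IsCyclic w (fun x => (f x : ℂ)) := by
  intro ρ hρ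
  obtain ⟨w, φ, F, hw0, hw1, hwa, hwρ, hwt, hws, hF, hF0, hFpos, hφm, hφw, hφ1, hφ⟩ :=
    Pool.Agent.Pab2f70.data ρ hρ
  have hlt1 : ∀ x : ℝ, 0 ≤ x → w x * Real.exp (-x) ≤ w x := by
    intro x hx
    have h1 : Real.exp (-x) ≤ 1 := Real.exp_le_one_iff.2 (by linarith)
    have h2 := hw0 x
    nlinarith
  have hanti : StrictAntiOn (fun x => w x * Real.exp (-x)) (Ici 0) := by
    intro x hx y hy hxy
    have h1 : w y ≤ w x := hwa hx hy hxy.le
    have h2 : Real.exp (-y) < Real.exp (-x) := Real.exp_lt_exp.2 (by linarith)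
    exact mul_lt_mul' h1 h2 (Real.exp_pos _).le (hw0 x)
  refine ⟨fun x => w x * Real.exp (-x), ⟨fun x _ => mul_pos (hw0 x) (Real.exp_pos _),
    ⟨1, fun x hx => (hlt1 x hx).trans (hw1 x hx)⟩, hanti, ?_, ⟨1, ?_⟩⟩,
    fun x hx => (hlt1 x (by linarith)).trans (hwρ x hx),
    fun x => F x * Real.exp x, fun x => mul_nonneg (hF0 x) (Real.exp_pos _).le,
    fun x hx hx1 => mul_pos (hFpos x hx hx1) (Real.exp_pos _), ?_, ?_⟩
  · have h1 : (fun x : ℝ => Real.log (w x * Real.exp (-x)) / x) =ᶠ[atTop]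
        fun x : ℝ => Real.log (w x) / x + (-1) := by
      filter_upwards [eventually_gt_atTop 0] with x hx
      rw [Real.log_mul (hw0 x).ne' (Real.exp_pos _).ne', Real.log_exp]
      field_simp
    rw [tendsto_congr' h1]
    exact tendsto_atBot_add_const_right _ _ hwt
  · intro x y hx hy
    have h1 := hws x y hx hy
    have h2 : Real.exp (-(x + y)) = Real.exp (-x) * Real.exp (-y) := by
      rw [← Real.exp_add]; ring_nf
    show w (x + y) * Real.exp (-(x + y)) ≤ 1 * (w x * Real.exp (-x)) * (w y * Real.exp (-y))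
    rw [h2]
    calc w (x + y) * (Real.exp (-x) * Real.exp (-y))
        ≤ (w x * w y) * (Real.exp (-x) * Real.exp (-y)) := by gcongr
      _ = 1 * (w x * Real.exp (-x)) * (w y * Real.exp (-y)) := by ring
  · have h1 : IntegrableOn (fun x : ℝ => ((w x * F x : ℝ) : ℂ)) (Set.Ioi (0 : ℝ)) := hF.ofReal
    refine h1.congr (Filter.Eventually.of_forall (fun x => ?_))
    show ((w x * F x : ℝ) : ℂ) = ((F x * Real.exp x : ℝ) : ℂ) * ((w x * Real.exp (-x) : ℝ) : ℂ)
    rw [← Complex.ofReal_mul]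
    congr 1
    have h2 : Real.exp x * Real.exp (-x) = 1 := by rw [← Real.exp_add]; simp
    calc w x * F x = w x * F x * (Real.exp x * Real.exp (-x)) := by rw [h2, mul_one]
      _ = _ := by ring
  · have key := Pool.Agent.Pab2f70.not_dense (w := fun x => w x * Real.exp (-x))
      (φ := fun x => φ x * Real.exp (-x)) (F := fun x => F x * Real.exp x)
      (κ := fun x => Real.exp x) (M := Real.exp 1)
      (fun x => mul_pos (hw0 x) (Real.exp_pos _)) (fun x hx => (hlt1 x hx).trans (hw1 x hx))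
      hanti.antitoneOn
      (fun x hx => by
        rw [abs_mul, abs_of_pos (Real.exp_pos _)]
        have := hφw x hx
        gcongr)
      Real.measurable_exp
      (fun x _ hx1 => by
        rw [abs_of_pos (Real.exp_pos _)]
        exact Real.exp_le_exp.2 hx1.le)
      (fun x hx hx1 => by
        rw [hφ1 x hx.le hx1, one_mul, ← Real.exp_add]; simp)
      (fun a ha => by
        have h1 := hφ a ha
        have h2 : (fun y : ℝ => φ (y + a) * Real.exp (-(y + a)) * (F y * Real.exp y)) =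
            fun y => Real.exp (-a) * (φ (y + a) * F y) := by
          funext y
          have h3 : Real.exp (-(y + a)) * Real.exp y = Real.exp (-a) := by
            rw [← Real.exp_add]; ring_nf
          calc φ (y + a) * Real.exp (-(y + a)) * (F y * Real.exp y)
              = (Real.exp (-(y + a)) * Real.exp y) * (φ (y + a) * F y) := by ring
            _ = _ := by rw [h3]
        refine ⟨?_, ?_⟩
        · rw [h2]
          exact h1.1.const_mul _
        · rw [h2, integral_const_mul, h1.2, mul_zero])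
    exact key

end Pool.Agent.Results.MP_ab2f70_an.FastDecay
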